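import Pool.Agent.Q97.UM.Jm

set_option autoImplicit false

/-!
# MP_69b2e4_nt: the order of the discrete moments of the derivative of zeta

Unconditionally, for every real `lam` the sum of `|ζ'(ρ)| ^ (2 lam)` over the simple zeros on the critical line with `0 < γ ≤ T` which
have distance at least `d / log T` from all other nontrivial zeros is at least `c T (log T) ^ ((lam + 1) ^ 2)`, with `c > 0`, uniformly for bounded
`lam`; and for `0 < lam < 1` the sum over all zeros on the critical line is at most `C T (log T) ^ ((lam + 1) ^ 2)`. So under the simple zeros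
hypothesis the lower bound in the Gonek-Hejhal conjecture holds for ALL real `lam`.
-/

namespace Pool.Agent.Results.MP_69b2e4_nt.OrderOverCriticalZeros

open Filter Topology MeasureTheory Complex

noncomputable section

/-- the nontrivial zeros of zeta with ordinate in `(0, T]` -/
def zeros (T : ℝ) : Set ℂ := {s : ℂ | riemannZeta s = 0 ∧ 0 < s.re ∧ s.re < 1 ∧ 0 < s.im ∧ s.im ≤ T}

/-- those on the critical line -/
def critical (T : ℝ) : Set ℂ := {s : ℂ | s ∈ zeros T ∧ s.re = 1 / 2}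

/-- the simple ones on the critical line at distance at least `d / log T` from every other nontrivial zero -/
def isolated (d T : ℝ) : Set ℂ := {s : ℂ | s ∈ critical T ∧ deriv riemannZeta s ≠ 0 ∧
  ∀ ρ : ℂ, riemannZeta ρ = 0 → 0 < ρ.re → ρ.re < 1 → ρ ≠ s → d / Real.log T ≤ ‖ρ - s‖}

/-- the simple zeros hypothesis -/
def SZC : Prop := ∀ s : ℂ, riemannZeta s = 0 → 0 < s.re → s.re < 1 → deriv riemannZeta s ≠ 0

/-- the sum of `|ζ'(s)| ^ (2 lam)` over a set -/
def Mom (lam : ℝ) (Z : Set ℂ) : ℝ := ∑ᶠ s ∈ Z, ‖deriv riemannZeta s‖ ^ (2 * lam)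

lemma zeros_eq (T : ℝ) : zeros T = H370.zset riemannZeta 0 T := by
  ext s
  simp only [zeros, H370.zset, Set.mem_ofPred_eq]
  tauto

theorem zeros_finite (T : ℝ) : (zeros T).Finite := by
  rw [zeros_eq]
  exact H370.zeta_zeros_finite T

theorem critical_finite (T : ℝ) : (critical T).Finite := (zeros_finite T).subset fun _ hs => hs.1

theorem isolated_finite (d T : ℝ) : (isolated d T).Finite := (critical_finite T).subset fun _ hs => hs.1

lemma Mom_mono {lam : ℝ} {Z Z' : Set ℂ} (h : Z ⊆ Z') (hf : Z'.Finite) : Mom lam Z ≤ Mom lam Z' := by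
  unfold Mom
  rw [finsum_mem_eq_finite_toFinset_sum _ (hf.subset h), finsum_mem_eq_finite_toFinset_sum _ hf]
  apply Finset.sum_le_sum_of_subset_of_nonneg
  · intro s hs
    rw [Set.Finite.mem_toFinset] at hs ⊢
    exact h hs
  · intro _ _ _
    positivity

lemma Mom_nonneg (lam : ℝ) (Z : Set ℂ) : 0 ≤ Mom lam Z := by
  unfold Mom
  exact finsum_nonneg fun s => finsum_nonneg fun _ => by positivity

open Classical in
lemma block_eq {T : ℝ} (hT : 1 ≤ T) : (((H370.Zf riemannZeta T (2 * T)).filter (fun s => s.re = 1 / 2) : Finset ℂ) : Set ℂ) =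
    critical (2 * T) \ critical T := by
  ext s
  simp only [Finset.coe_filter, Set.mem_ofPred_eq, Set.mem_sdiff, critical, zeros, H370.mem_Zf H370.good_zeta hT]
  constructor
  · rintro ⟨⟨h1, h2, h3, h4, h5⟩, h6⟩
    exact ⟨⟨⟨h5, h1, h2, by linarith, h4⟩, h6⟩, fun h => by linarith [h.1.2.2.2.2]⟩
  · rintro ⟨⟨⟨h1, h2, h3, h4, h5⟩, h6⟩, h7⟩
    refine ⟨⟨h2, h3, ?_, h5, h1⟩, h6⟩
    by_contra h8
    exact h7 ⟨⟨h1, h2, h3, h4, not_lt.1 h8⟩, h6⟩

open Classical in
lemma Mom_split {lam T : ℝ} (hT : 1 ≤ T) : Mom lam (critical (2 * T)) = Mom lam (critical T) +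
    ∑ s ∈ (H370.Zf riemannZeta T (2 * T)).filter (fun s => s.re = 1 / 2), ‖deriv riemannZeta s‖ ^ (2 * lam) := by
  have hsub : critical T ⊆ critical (2 * T) := by
    rintro s ⟨⟨h1, h2, h3, h4, h5⟩, h6⟩
    exact ⟨⟨h1, h2, h3, h4, by linarith⟩, h6⟩
  unfold Mom
  rw [← finsum_mem_coe_finset, block_eq hT]
  have h := finsum_mem_union (f := fun s => ‖deriv riemannZeta s‖ ^ (2 * lam)) (Set.disjoint_sdiff_right (s := critical T) (t := critical (2 * T)))
    (critical_finite T) ((critical_finite (2 * T)).subset Set.sdiff_subset)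
  rw [Set.union_sdiff_cancel hsub] at h
  exact h

/-- upper bound by dyadic summation -/
lemma upper {lam : ℝ} (h0 : 0 < lam) (h1 : lam < 1) : ∃ C T₀ : ℝ, ∀ T : ℝ, T₀ ≤ T →
    Mom lam (critical T) ≤ C * T * Real.log T ^ ((lam + 1) ^ 2) := by
  classical
  obtain ⟨C, hC, h⟩ := Pool.Agent.Q97.UM.J_up h0 h1
  obtain ⟨T₁, hT₁⟩ := eventually_atTop.1 (h.and (eventually_ge_atTop 3))
  have hT₁3 : 3 ≤ T₁ := (hT₁ T₁ le_rfl).2
  set K := Mom lam (critical (2 * T₁)) with hK
  have hK0 : 0 ≤ K := Mom_nonneg _ _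
  have key : ∀ n : ℕ, ∀ T : ℝ, T₁ ≤ T → T ≤ 2 ^ n * (2 * T₁) → Mom lam (critical T) ≤ K + 2 * C * T * Real.log T ^ ((lam + 1) ^ 2) := by
    intro n
    induction n with
    | zero =>
      intro T hT hT'
      have h2 : Mom lam (critical T) ≤ K := by
        apply Mom_mono _ (critical_finite _)
        rintro s ⟨⟨h1, h2, h3, h4, h5⟩, h6⟩
        exact ⟨⟨h1, h2, h3, h4, by linarith⟩, h6⟩
      have hT0 : 0 < T := by linarith
      have hL : 0 ≤ Real.log T := Real.log_nonneg (by linarith)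
      have : 0 ≤ 2 * C * T * Real.log T ^ ((lam + 1) ^ 2) := by positivity
      linarith
    | succ n ih =>
      intro T hT hT'
      by_cases hc : T ≤ 2 * T₁
      · have h2 : Mom lam (critical T) ≤ K := by
          apply Mom_mono _ (critical_finite _)
          rintro s ⟨⟨h1, h2, h3, h4, h5⟩, h6⟩
          exact ⟨⟨h1, h2, h3, h4, by linarith⟩, h6⟩
        have hT0 : 0 < T := by linarith
        have hL : 0 ≤ Real.log T := Real.log_nonneg (by linarith)
        have : 0 ≤ 2 * C * T * Real.log T ^ ((lam + 1) ^ 2) := by positivity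
        linarith
      · rw [not_le] at hc
        have e1 : T₁ ≤ T / 2 := by linarith
        have e2 : T / 2 ≤ 2 ^ n * (2 * T₁) := by
          rw [pow_succ] at hT'
          linarith
        have h2 := ih (T / 2) e1 e2
        have h3 := (hT₁ (T / 2) e1).1
        have h4 := Mom_split (lam := lam) (T := T / 2) (by linarith)
        rw [show 2 * (T / 2) = T by ring] at h3 h4
        rw [h4]
        have hT0 : 0 < T := by linarith
        have hL : 0 ≤ Real.log (T / 2) := Real.log_nonneg (by linarith)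
        have hL2 : Real.log (T / 2) ≤ Real.log T := Real.log_le_log (by linarith) (by linarith)
        have h5 : Real.log (T / 2) ^ ((lam + 1) ^ 2) ≤ Real.log T ^ ((lam + 1) ^ 2) :=
          Real.rpow_le_rpow hL hL2 (by positivity)
        have h6 : 0 ≤ Real.log T ^ ((lam + 1) ^ 2) := Real.rpow_nonneg (hL.trans hL2) _
        have h7 : C * (T / 2) * Real.log (T / 2) ^ ((lam + 1) ^ 2) ≤ C * (T / 2) * Real.log T ^ ((lam + 1) ^ 2) :=
          mul_le_mul_of_nonneg_left h5 (by positivity)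
        have h8 : 0 ≤ C * T * Real.log T ^ ((lam + 1) ^ 2) := by positivity
        linarith
  refine ⟨2 * C + 1, max T₁ (max K 3), ?_⟩
  intro T hT
  have hTa : T₁ ≤ T := (le_max_left _ _).trans hT
  have hTb : K ≤ T := (le_max_left _ _).trans ((le_max_right _ _).trans hT)
  have hTc : 3 ≤ T := (le_max_right _ _).trans ((le_max_right _ _).trans hT)
  obtain ⟨n, hn⟩ := pow_unbounded_of_one_lt (T / (2 * T₁)) (by norm_num : (1 : ℝ) < 2)
  rw [div_lt_iff₀ (by linarith)] at hn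
  have h2 := key n T hTa hn.le
  have hL1 : 1 ≤ Real.log T := by
    rw [Real.le_log_iff_exp_le (by linarith)]
    have := Real.exp_one_lt_d9
    linarith
  have h3 : 1 ≤ Real.log T ^ ((lam + 1) ^ 2) := Real.one_le_rpow hL1 (by positivity)
  have h4 : K ≤ T * Real.log T ^ ((lam + 1) ^ 2) := by nlinarith
  linarith

/-- lower bound -/
lemma lower : ∃ d : ℝ, 0 < d ∧ ∀ A : ℝ, ∃ c T₀ : ℝ, 0 < c ∧ ∀ T : ℝ, T₀ ≤ T → ∀ lam : ℝ, |lam| ≤ A →
    c * T * Real.log T ^ ((lam + 1) ^ 2) ≤ Mom lam (isolated d T) := by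
  obtain ⟨d, hd, hd1, h⟩ := Pool.Agent.Q97.UM.J_low
  refine ⟨d, hd, ?_⟩
  intro A₀
  obtain ⟨A, hAd⟩ : ∃ A : ℝ, A = max A₀ 1 := ⟨_, rfl⟩
  have hA1 : 1 ≤ A := by rw [hAd]; exact le_max_right _ _
  obtain ⟨c, hc, h1⟩ := h A hA1
  obtain ⟨T₁, hT₁⟩ := eventually_atTop.1 (h1.and (eventually_ge_atTop 16))
  refine ⟨c / 2 * (1 / 2) ^ ((A + 1) ^ 2), 2 * T₁, by positivity, ?_⟩
  intro T hT lam hlam
  have hlam' : |lam| ≤ A := hlam.trans (by rw [hAd]; exact le_max_left _ _)
  obtain ⟨h2, h3⟩ := hT₁ (T / 2) (by linarith)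
  have h4 := h2 lam hlam'
  have hT32 : 32 ≤ T := by linarith
  have hsub : ((Pool.Agent.Q97.UM.ZI d (T / 2) : Finset ℂ) : Set ℂ) ⊆ isolated d T := by
    intro s hs
    rw [SetLike.mem_coe, Pool.Agent.Q97.UM.mem_ZI_iff h3 hd1] at hs
    obtain ⟨a1, a2, a3, a4, a5, a6⟩ := hs
    refine ⟨⟨⟨a4, by rw [a1]; norm_num, by rw [a1]; norm_num, by linarith, by linarith⟩, a1⟩, a5, ?_⟩
    intro ρ b1 b2 b3 b4
    refine le_trans ?_ (a6 ρ b1 b2 b3 b4)
    have hL : 0 < Real.log (T / 2) := Real.log_pos (by linarith)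
    have hL2 : Real.log (T / 2) ≤ Real.log T := Real.log_le_log (by linarith) (by linarith)
    gcongr
  have h5 : ∑ s ∈ Pool.Agent.Q97.UM.ZI d (T / 2), ‖deriv riemannZeta s‖ ^ (2 * lam) ≤ Mom lam (isolated d T) := by
    have h6 := Mom_mono (lam := lam) hsub (isolated_finite d T)
    refine le_trans (le_of_eq ?_) h6
    unfold Mom
    rw [finsum_mem_coe_finset]
  refine le_trans ?_ (h4.trans h5)
  have hlogT : 0 < Real.log T := Real.log_pos (by linarith)
  have hhalf : Real.log T / 2 ≤ Real.log (T / 2) := by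
    rw [Real.log_div (by linarith) (by norm_num)]
    have h6 : 2 * Real.log 2 ≤ Real.log T := by
      rw [← Real.log_rpow (by norm_num)]
      apply Real.log_le_log (by positivity)
      norm_num
      linarith
    linarith
  have e1 : (lam + 1) ^ 2 ≤ (A + 1) ^ 2 := by
    rw [abs_le] at hlam'
    nlinarith
  have h6 : (1 / 2 : ℝ) ^ ((A + 1) ^ 2) * Real.log T ^ ((lam + 1) ^ 2) ≤ Real.log (T / 2) ^ ((lam + 1) ^ 2) := by
    calc (1 / 2 : ℝ) ^ ((A + 1) ^ 2) * Real.log T ^ ((lam + 1) ^ 2) ≤ (1 / 2 : ℝ) ^ ((lam + 1) ^ 2) * Real.log T ^ ((lam + 1) ^ 2) := by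
          apply mul_le_mul_of_nonneg_right _ (by positivity)
          exact Real.rpow_le_rpow_of_exponent_ge (by norm_num) (by norm_num) e1
      _ = (1 / 2 * Real.log T) ^ ((lam + 1) ^ 2) := by rw [Real.mul_rpow (by norm_num) hlogT.le]
      _ ≤ Real.log (T / 2) ^ ((lam + 1) ^ 2) := by
          apply Real.rpow_le_rpow (by positivity) _ (by positivity)
          linarith
  have hT0 : 0 < T := by linarith
  calc c / 2 * (1 / 2) ^ ((A + 1) ^ 2) * T * Real.log T ^ ((lam + 1) ^ 2) =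
      c * (T / 2) * ((1 / 2 : ℝ) ^ ((A + 1) ^ 2) * Real.log T ^ ((lam + 1) ^ 2)) := by ring
    _ ≤ _ := mul_le_mul_of_nonneg_left h6 (by positivity)

/-- **the order of the discrete moments of the derivative** -/
theorem result :
    (∀ d T : ℝ, (zeros T).Finite ∧ (critical T).Finite ∧ (isolated d T).Finite) ∧
    (∃ d : ℝ, 0 < d ∧ ∀ A : ℝ, ∃ c T₀ : ℝ, 0 < c ∧ ∀ T : ℝ, T₀ ≤ T → ∀ lam : ℝ, |lam| ≤ A →
      c * T * Real.log T ^ ((lam + 1) ^ 2) ≤ Mom lam (isolated d T)) ∧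
    (∀ lam : ℝ, 0 < lam → lam < 1 → ∃ C T₀ : ℝ, ∀ T : ℝ, T₀ ≤ T →
      Mom lam (critical T) ≤ C * T * Real.log T ^ ((lam + 1) ^ 2)) ∧
    (SZC → ∀ A : ℝ, ∃ c T₀ : ℝ, 0 < c ∧ ∀ T : ℝ, T₀ ≤ T → ∀ lam : ℝ, |lam| ≤ A →
      c * T * Real.log T ^ ((lam + 1) ^ 2) ≤ Mom lam (zeros T)) := by
  obtain ⟨d, hd, hlow⟩ := lower
  have hfull : ∀ A : ℝ, ∃ c T₀ : ℝ, 0 < c ∧ ∀ T : ℝ, T₀ ≤ T → ∀ lam : ℝ, |lam| ≤ A →
      c * T * Real.log T ^ ((lam + 1) ^ 2) ≤ Mom lam (zeros T) := by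
    intro A
    obtain ⟨c, T₀, hc, h⟩ := hlow A
    refine ⟨c, T₀, hc, fun T hT lam hlam => (h T hT lam hlam).trans ?_⟩
    exact Mom_mono (fun s hs => hs.1.1) (zeros_finite T)
  refine ⟨fun d T => ⟨zeros_finite T, critical_finite T, isolated_finite d T⟩, ⟨d, hd, hlow⟩, fun lam h0 h1 => upper h0 h1,
    fun _ => hfull⟩

end

end Pool.Agent.Results.MP_69b2e4_nt.OrderOverCriticalZeros
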